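import Pool.Agent.Helper80.EC_D.Goals

set_option autoImplicit false

open MeasureTheory Filter Topology Set

namespace EC237.PD.PkDTEL

theorem psum (f : ℤ → ℂ) (N : ℕ) :
    ∑ m ∈ Finset.Ico (-(N:ℤ)) (N:ℤ), (f m - f (m + 3)) =
      (f (-(N:ℤ)) + f (-(N:ℤ) + 1) + f (-(N:ℤ) + 2)) - (f N + f ((N:ℤ) + 1) + f ((N:ℤ) + 2)) := by
  induction N with
  | zero => simp
  | succ N ih =>
    have e : Finset.Ico (-((N + 1 : ℕ):ℤ)) ((N + 1 : ℕ):ℤ) =
        insert (-((N:ℤ) + 1)) (insert (N:ℤ) (Finset.Ico (-(N:ℤ)) (N:ℤ))) := by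
      ext x
      simp only [Finset.mem_Ico, Finset.mem_insert]
      push_cast
      omega
    rw [e, Finset.sum_insert, Finset.sum_insert, ih]
    · push_cast
      have e1 : -((N:ℤ) + 1) + 3 = -(N:ℤ) + 2 := by ring
      have e2 : -((N:ℤ) + 1) + 1 = -(N:ℤ) := by ring
      have e3 : -((N:ℤ) + 1) + 2 = -(N:ℤ) + 1 := by ring
      have e4 : (N:ℤ) + 1 + 1 = (N:ℤ) + 2 := by ring
      have e5 : (N:ℤ) + 1 + 2 = (N:ℤ) + 3 := by ring
      rw [e1, e2, e3, e4, e5]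
      ring
    · simp
    · simp only [Finset.mem_insert, Finset.mem_Ico]
      omega

theorem lim (f : ℤ → ℂ) (hf : Tendsto f cofinite (𝓝 0)) (g : ℕ → ℤ)
    (hg : Function.Injective g) : Tendsto (fun N => f (g N)) atTop (𝓝 0) := by
  have h := hg.tendsto_cofinite
  rw [Nat.cofinite_eq_atTop] at h
  exact hf.comp h

theorem thm : EC237.PD.G_DTEL := by
  intro f hf hs
  have h1 : Tendsto (fun N : ℕ => Finset.Ico (-(N:ℤ)) (N:ℤ)) atTop atTop := by
    refine tendsto_atTop_finset_of_monotone ?_ ?_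
    · intro a b hab
      refine Finset.Ico_subset_Ico ?_ ?_ <;> omega
    · intro x
      refine ⟨x.natAbs + 1, ?_⟩
      rw [Finset.mem_Ico]
      omega
  have h2 := hs.hasSum
  have h3 : Tendsto (fun N : ℕ => ∑ m ∈ Finset.Ico (-(N:ℤ)) (N:ℤ), (f m - f (m + 3))) atTop
      (𝓝 (∑' m, (f m - f (m + 3)))) := by
    have h2' : Tendsto (fun s : Finset ℤ => ∑ m ∈ s, (f m - f (m + 3))) atTop
        (𝓝 (∑' m, (f m - f (m + 3)))) := h2
    exact h2'.comp h1
  have h4 : Tendsto (fun N : ℕ => (f (-(N:ℤ)) + f (-(N:ℤ) + 1) + f (-(N:ℤ) + 2)) -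
      (f N + f ((N:ℤ) + 1) + f ((N:ℤ) + 2))) atTop (𝓝 ((0 + 0 + 0) - (0 + 0 + 0))) := by
    refine Tendsto.sub (Tendsto.add (Tendsto.add ?_ ?_) ?_) (Tendsto.add (Tendsto.add ?_ ?_) ?_)
    · exact lim f hf (fun N => -(N:ℤ)) (fun a b h => by simpa using h)
    · exact lim f hf (fun N => -(N:ℤ) + 1) (fun a b h => by simpa using h)
    · exact lim f hf (fun N => -(N:ℤ) + 2) (fun a b h => by simpa using h)
    · exact lim f hf (fun N => (N:ℤ)) (fun a b h => by simpa using h)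
    · exact lim f hf (fun N => (N:ℤ) + 1) (fun a b h => by simpa using h)
    · exact lim f hf (fun N => (N:ℤ) + 2) (fun a b h => by simpa using h)
  have h5 := h4.congr (fun N => (psum f N).symm)
  have h6 := tendsto_nhds_unique h3 h5
  rw [h6]
  simp

end EC237.PD.PkDTEL
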